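import Pool.Agent.W606.PS.Stm

set_option autoImplicit false

open Set Relation

namespace Pool.Agent.W439.PS.SEPT

open Pool.Agent.W606.PS

lemma conn_of_con {V : Type} {G : SimpleGraph V} (h : Con G univ) : G.Connected := by
  obtain ⟨⟨v0, -⟩, h2⟩ := h
  have : Nonempty V := ⟨v0⟩
  refine SimpleGraph.Connected.mk ?_
  intro u v
  have := h2 u (mem_univ u) v (mem_univ v)
  induction this with
  | refl => exact SimpleGraph.Reachable.refl u
  | tail _ h ih => exact ih.trans h.1.reachable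

lemma dist_adj_le {V : Type} {G : SimpleGraph V} (h : G.Connected) {u v : V} (e : G.Adj u v)
    (z : V) : G.dist u z ≤ G.dist v z + 1 := by
  have h1 := h.dist_triangle (u := u) (v := v) (w := z)
  have h2 : G.dist u v ≤ 1 := by
    rw [SimpleGraph.dist_eq_one_iff_adj.2 e]
  omega

lemma con_image {A W : Type} {G₀ : SimpleGraph A} {G : SimpleGraph (A ⊕ W)} (hVF : VF G₀ G)
    {R : Set A} (hR : Con G₀ R) : Con G (Sum.inl '' R) := by
  obtain ⟨u, hu⟩ := hR.1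
  refine con_of_base (u := Sum.inl u) ⟨u, hu, rfl⟩ ?_
  rintro _ ⟨v, hv, rfl⟩
  have := hR.2 u hu v hv
  clear hv
  induction this with
  | refl => exact ReflTransGen.refl
  | tail _ h ih =>
    exact ih.tail ⟨(hVF.ll _ _).2 h.1, ⟨_, h.2.1, rfl⟩, ⟨_, h.2.2, rfl⟩⟩

lemma exit_walk {V : Type} {G : SimpleGraph V} {A : Set V} {y z : V} (p : G.Walk y z)
    (hy : y ∈ A) (hz : z ∉ A) : ∃ y' ∈ Nb G A, G.dist y' z ≤ p.length := by
  induction p with
  | nil => exact absurd hy hz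
  | @cons u v w h p ih =>
    by_cases hv : v ∈ A
    · obtain ⟨y', hy', hd⟩ := ih hv hz
      refine ⟨y', hy', hd.trans ?_⟩
      rw [SimpleGraph.Walk.length_cons]
      omega
    · refine ⟨v, ⟨hv, u, hy, h⟩, (SimpleGraph.dist_le p).trans ?_⟩
      rw [SimpleGraph.Walk.length_cons]
      omega

lemma exit_dist {V : Type} {G : SimpleGraph V} (hG : G.Connected) {A : Set V} {y z : V}
    (hy : y ∈ A) (hz : z ∉ A) : ∃ y' ∈ Nb G A, G.dist y' z ≤ G.dist y z := by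
  obtain ⟨p, hp⟩ := hG.exists_walk_length_eq_dist y z
  obtain ⟨y', h1, h2⟩ := exit_walk p hy hz
  exact ⟨y', h1, by omega⟩

theorem main (h1 : S_LINK) (h2 : S_LEV) (h3 : S_DIAM) (h4 : S_HELLY) (h5 : S_PJ) : S_SEPT := by
  intro A W _ _ G₀ G hVF hG₀ hG hNBP k hk hTD Om x hOc hx
  classical
  have hconn : G.Connected := conn_of_con hG
  obtain ⟨B, hB⟩ := h2 (A ⊕ W) G hG hNBP Om x (7 * k + 1) hOc hx
  have hlink := h1 A W G₀ G hVF hG₀ hG hNBP
  obtain ⟨z0, hz0⟩ := hOc.1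
  set J : Fin (k + 1) → ℕ := fun i => 2 * k + 1 + 3 * (i : ℕ) with hJ
  have hJle : ∀ i, J i ≤ 5 * k + 1 := by
    intro i
    have := i.2
    simp only [hJ]
    omega
  have hJle' : ∀ i, J i ≤ 7 * k + 1 := fun i => (hJle i).trans (by omega)
  set P : Fin (k + 1) → Set A := fun i => {a | Sum.inl a ∈ Nb G (B (J i)) ∨
    ∃ w, Sum.inr w ∈ Nb G (B (J i)) ∧ G.Adj (Sum.inr w) (Sum.inl a)} with hP
  have hPcon : ∀ i, Con G₀ (P i) := fun i =>
    h5 A W G₀ G hVF hlink (Nb G (B (J i))) (hB (J i) (hJle' i)).2.2.2.1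
  have hPlow : ∀ i, ∀ a ∈ P i, ∀ z, z ∉ Om → J i ≤ G.dist (Sum.inl a) z + 1 := by
    rintro i a (ha | ⟨w, hw, e⟩) z hz
    · have := ((hB (J i) (hJle' i)).2.2.2.2.1 _ ha).1 z hz
      omega
    · have := ((hB (J i) (hJle' i)).2.2.2.2.1 _ hw).1 z hz
      have := dist_adj_le hconn e z
      omega
  have hPup : ∀ i, ∀ a ∈ P i, ∃ z, z ∉ Om ∧ G.dist (Sum.inl a) z ≤ J i + 1 := by
    rintro i a (ha | ⟨w, hw, e⟩)
    · obtain ⟨z, hz, hd⟩ := ((hB (J i) (hJle' i)).2.2.2.2.1 _ ha).2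
      exact ⟨z, hz, by omega⟩
    · obtain ⟨z, hz, hd⟩ := ((hB (J i) (hJle' i)).2.2.2.2.1 _ hw).2
      have := dist_adj_le hconn e.symm z
      exact ⟨z, hz, by omega⟩
  have hlt : ∀ i j, i < j → Disjoint (P i) (P j) := by
    intro i j hij
    rw [Set.disjoint_left]
    intro a hai haj
    obtain ⟨z, hz, hd⟩ := hPup i a hai
    have := hPlow j a haj z hz
    have hij' : (i : ℕ) < j := hij
    simp only [hJ] at this hd
    omega
  have hPdis : ∀ i j, i ≠ j → Disjoint (P i) (P j) := by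
    intro i j hij
    rcases lt_or_gt_of_ne hij with h | h
    · exact hlt i j h
    · exact (hlt j i h).symm
  obtain ⟨i, l, hil, S, R, hSk, hSi, hSl, hRcon, hlR, hRi, hRS, hRnb⟩ :=
    h4 A G₀ k hTD P hPcon hPdis
  have hil' : J i + 3 ≤ J l := by
    have : (i : ℕ) < l := hil
    simp only [hJ]
    omega
  obtain ⟨hxi, hci, -, -, hni, hBi⟩ := hB (J i) (hJle' i)
  obtain ⟨hxl, hcl, -, hQlcon, hnl, -⟩ := hB (J l) (hJle' l)
  have hBli : B (J l) ∪ Nb G (B (J l)) ⊆ B (J i) := hBi (J l) (hJle' l) (by omega)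
  -- step 1
  have hRB : ∀ a ∈ R, Sum.inl a ∈ B (J i) := by
    obtain ⟨a0, ha0⟩ := (hPcon l).1
    have ha0B : Sum.inl a0 ∈ B (J i) := by
      rcases id ha0 with h | ⟨w, hw, e⟩
      · exact hBli (Or.inr h)
      · refine hci.2.2 (Sum.inr w) (hBli (Or.inr hw)) (Sum.inl a0) ?_ e
        intro z hz
        have := hPlow l a0 ha0 z hz
        omega
    intro a ha
    by_contra hcon
    obtain ⟨c, d, hc, hd, hcB, hdB, e⟩ := hRcon.exit (A := {a | Sum.inl a ∈ B (J i)})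
      (hlR ha0) ha0B ha hcon
    have hdP : d ∈ P i := Or.inl ⟨hdB, Sum.inl c, hcB, (hVF.ll _ _).2 e⟩
    exact Set.disjoint_left.1 hRi hd hdP
  have hRd : ∀ a ∈ R, ∀ z, z ∉ Om → J i < G.dist (Sum.inl a) z := fun a ha z hz =>
    hci.1 (hRB a ha) z hz
  -- step 2
  set R' : Set (A ⊕ W) := Sum.inl '' R with hR'
  have hR'Om : Omᶜ ⊆ R'ᶜ := by
    rintro z hz ⟨a, ha, rfl⟩
    have := hRd a ha _ hz
    rw [SimpleGraph.dist_self] at this
    omega
  have hR'con : Con G R' := con_image hVF hRcon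
  obtain ⟨Wc, hWc, hz0W⟩ := exists_comp G (S := univ \ R') (u := z0) ⟨mem_univ _, hR'Om hz0⟩
  have hWR : ∀ v ∈ Wc, v ∉ R' := fun v hv => (hWc.1 hv).2
  have hOW : Omᶜ ⊆ Wc :=
    hWc.sub_of_con hOc (fun z hz => ⟨mem_univ _, hR'Om hz⟩) ⟨z0, hz0, hz0W⟩
  have hAcon : Con G Wcᶜ := by
    have := con_diff_comp hG (subset_univ R') hR'con hWc
    rwa [← compl_eq_univ_sdiff] at this
  have hNcon : Con G (Nb G Wcᶜ) := hNBP Wcᶜ hAcon (by rw [compl_compl]; exact hWc.2.1)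
  -- step 3
  have hNbR : ∀ y ∈ Nb G Wcᶜ, ∃ a ∈ R, G.Adj (Sum.inl a) y := by
    rintro y ⟨hy, u, hu, e⟩
    rw [mem_compl_iff, not_not] at hy
    by_cases huR : u ∈ R'
    · obtain ⟨a, ha, rfl⟩ := huR
      exact ⟨a, ha, e⟩
    · exact absurd (hWc.2.2 y hy u ⟨mem_univ _, huR⟩ e.symm) hu
  have hNbS : {a : A | Sum.inl a ∈ Nb G Wcᶜ} ⊆ (S : Set A) := by
    intro a ha
    obtain ⟨b, hb, e⟩ := hNbR _ ha
    have haW : Sum.inl a ∈ Wc := by
      have := ha.1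
      rwa [mem_compl_iff, not_not] at this
    rcases hRnb b hb a ((hVF.ll _ _).1 e) with h | h
    · exact absurd ⟨a, h, rfl⟩ (hWR _ haW)
    · exact h
  have hNbcard : {a : A | Sum.inl a ∈ Nb G Wcᶜ}.ncard ≤ k := by
    refine (Set.ncard_le_ncard hNbS (Finset.finite_toSet S)).trans ?_
    rw [Set.ncard_coe_finset]
    exact hSk
  have hdiam : ∀ y ∈ Nb G Wcᶜ, ∀ y' ∈ Nb G Wcᶜ, G.dist y y' ≤ 2 * k :=
    h3 A W G hVF.rr (Nb G Wcᶜ) k hNcon hNbcard
  have hlow : ∀ y ∈ Nb G Wcᶜ, ∀ z, z ∉ Om → 2 * k + 1 ≤ G.dist y z := by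
    intro y hy z hz
    obtain ⟨a, ha, e⟩ := hNbR y hy
    have e1 := hRd a ha z hz
    have e2 := dist_adj_le hconn e z
    have e3 : 2 * k + 1 ≤ J i := by
      simp only [hJ]
      omega
    omega
  -- step 4
  have hQA : ∀ y ∈ Nb G (B (J l)), y ∉ Wc := by
    intro y hy hyW
    rcases y with a | w
    · exact hWR _ hyW ⟨a, hlR (Or.inl hy), rfl⟩
    · have hne : z0 ∉ ({Sum.inr w} : Set (A ⊕ W)) := by
        intro hh
        rw [mem_singleton_iff] at hh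
        have := (hnl _ hy).1 z0 hz0
        rw [hh, SimpleGraph.dist_self] at this
        omega
      obtain ⟨c, d, hc, hd, hcB, hdB, e⟩ := hWc.2.1.exit (A := {Sum.inr w}) hyW rfl hz0W hne
      rw [mem_singleton_iff] at hcB
      subst hcB
      rcases d with a | w'
      · exact hWR _ hd ⟨a, hlR (Or.inr ⟨w, hy, e⟩), rfl⟩
      · exact hVF.rr _ _ e
  have hBA : ∀ v ∈ B (J l), v ∉ Wc := by
    intro v hv hvW
    have hz0B : z0 ∉ B (J l) := by
      intro hh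
      have := hcl.1 hh z0 hz0
      rw [SimpleGraph.dist_self] at this
      omega
    obtain ⟨c, d, hc, hd, hcB, hdB, e⟩ := hWc.2.1.exit hvW hv hz0W hz0B
    exact hQA d ⟨hdB, c, hcB, e⟩ hd
  -- step 5
  obtain ⟨y0, hy0⟩ := hQlcon.1
  obtain ⟨z1, hz1, hd1⟩ := (hnl y0 hy0).2
  obtain ⟨ys, hys, hds⟩ := exit_dist hconn (A := Wcᶜ) (hQA y0 hy0)
    (by rw [mem_compl_iff, not_not]; exact hOW hz1)
  refine ⟨Wcᶜ, hBA x hxl, ?_, ?_, hdiam⟩
  · intro v hv
    by_contra hvO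
    exact hv (hOW hvO)
  · intro y hy
    refine ⟨?_, hlow y hy, z1, hz1, ?_⟩
    · by_contra hyO
      have := hlow y hy y hyO
      rw [SimpleGraph.dist_self] at this
      omega
    · have e1 := hdiam y hy ys hys
      have e2 := hconn.dist_triangle (u := y) (v := ys) (w := z1)
      have e3 := hJle l
      omega

end Pool.Agent.W439.PS.SEPT
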